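import Pool.Agent.FTU.Stmts

set_option autoImplicit false

open MvPolynomial

namespace Pool.Agent.FTU.H77

theorem cj_C (a : ℂ) : cj (C a) = C ((starRingEnd ℂ) a) := by
  show (rename sw) (MvPolynomial.map (starRingEnd ℂ) (C a)) = _
  rw [map_C, rename_C]

theorem cj_X (v : Var) : cj (X v) = X (sw v) := by
  show (rename sw) (MvPolynomial.map (starRingEnd ℂ) (X v)) = _
  rw [map_X, rename_X]

theorem sw_sw (v : Var) : sw (sw v) = v := by
  cases v <;> rfl

theorem cj_cj (P : RR) : cj (cj P) = P := by
  have h : cj.comp cj = RingHom.id RR := by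
    refine MvPolynomial.ringHom_ext ?_ ?_
    · intro a
      show cj (cj (C a)) = C a
      rw [cj_C, cj_C, Complex.conj_conj]
    · intro v
      show cj (cj (X v)) = X v
      rw [cj_X, cj_X, sw_sw]
  exact congrFun (congrArg DFunLike.coe h) P

theorem cj_der (d d' : Derivation ℂ RR RR) (h : ∀ v, cj (d (X v)) = d' (X (sw v))) (P : RR) :
    cj (d P) = d' (cj P) := by
  induction P using MvPolynomial.induction_on with
  | C a =>
    rw [cj_C]
    have h1 : d (C a) = 0 := d.map_algebraMap a
    have h2 : d' (C ((starRingEnd ℂ) a)) = 0 := d'.map_algebraMap _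
    rw [h1, h2, map_zero]
  | add p q hp hq => rw [map_add, map_add, hp, hq, map_add, map_add]
  | mul_X p v hp =>
    rw [Derivation.leibniz, map_mul, Derivation.leibniz, smul_eq_mul, smul_eq_mul, smul_eq_mul,
      smul_eq_mul, map_add, map_mul, map_mul, hp, h, cj_X]

theorem cj_w0 : cj w0 = w0 := by
  have h : (starRingEnd ℂ) (1 / 2) = 1 / 2 := by
    rw [map_div₀, map_one]
    congr 1
    exact map_ofNat (starRingEnd ℂ) 2
  unfold w0 xz xb
  rw [map_sub, map_mul, map_mul, cj_C, cj_X, cj_X, map_one, h]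
  show C (1 / 2) * X Var.zb * X Var.z - 1 = _
  ring

theorem cj_x1 : cj x1 = x1 := by
  have h : (starRingEnd ℂ) (1 / 2) = 1 / 2 := by
    rw [map_div₀, map_one]
    congr 1
    exact map_ofNat (starRingEnd ℂ) 2
  unfold x1 xz xb
  rw [map_mul, map_add, cj_C, cj_X, cj_X, h]
  show C (1 / 2) * (X Var.zb + X Var.z) = _
  ring

theorem cj_x2 : cj x2 = x2 := by
  have h : (starRingEnd ℂ) (-(Complex.I / 2)) = -(-(Complex.I / 2)) := by
    rw [map_neg, map_div₀, Complex.conj_I, map_ofNat]
    ring
  unfold x2 xz xb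
  rw [map_mul, map_sub, cj_C, cj_X, cj_X, h, C_neg (a := -(Complex.I / 2))]
  show -C (-(Complex.I / 2)) * (X Var.zb - X Var.z) = _
  ring

theorem cja : CjaStmt := by
  refine ⟨cj_cj, cj_C, cj_X _, cj_X _, cj_X _, fun c p q r => cj_X _, ?_, ?_, ?_, cj_w0, cj_x1,
    cj_x2, ?_⟩
  · refine cj_der dz db fun v => ?_
    unfold dz db
    rw [pderiv_X, pderiv_X]
    cases v <;> simp [sw, Pi.single_apply]
  · refine cj_der db dz fun v => ?_
    unfold dz db
    rw [pderiv_X, pderiv_X]
    cases v <;> simp [sw, Pi.single_apply]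
  · refine cj_der dt dt fun v => ?_
    unfold dt
    rw [mkDerivation_X, mkDerivation_X]
    cases v with
    | eta => exact map_zero cj
    | z => exact map_zero cj
    | zb => exact map_zero cj
    | jet c p q r => exact cj_X _
  · intro M c
    unfold TT
    rw [map_sum]
    refine Finset.sum_congr rfl fun p _ => ?_
    rw [map_sum]
    refine Finset.sum_congr rfl fun q _ => ?_
    by_cases h : p + q < M
    · rw [if_pos h]
      have h1 : (starRingEnd ℂ) (1 / ((p.factorial : ℂ) * q.factorial)) =
          1 / ((p.factorial : ℂ) * q.factorial) := by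
        rw [map_div₀, map_one, map_mul, map_natCast, map_natCast]
      have h2 : cj xe = xe := cj_X _
      have h3 : cj (X (Var.jet c p q 0)) = X (Var.jet c p q 0) := cj_X _
      rw [map_mul, map_mul, map_mul, map_mul, map_pow, map_pow, map_pow, cj_C, h1, h2, h3, cj_x1,
        cj_x2]
    · rw [if_neg h, map_zero]

end Pool.Agent.FTU.H77
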